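import Pool.Agent.V8H78.LeafCurves.Test

/-!
# A leafwise complex cycle which is nowhere near a point a superposition of curves

On `M = ℂⁿ × ℝᵏ` with `n ≥ 2`, foliated by the leaves `ℂⁿ × {w}` with their standard complex
structure, there is a `C`-cycle `c` (the tropical current, the current of integration of the
Levi-flat pieces of the set where the maximum of `Re z₁`, `Re z₂`, `0` is attained twice) such that
`c` is on no neighbourhood of the origin a non-negative superposition of pseudoholomorphic curves.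
-/

open Set MeasureTheory TopologicalSpace Topology Filter
open scoped Distributions CompactConvergenceCLM Manifold ContDiff NNReal

noncomputable section

namespace Pool.Agent.Results.MP_03adb9_gt.NoLocalSuperposition

open Pool.Agent.V8H78.LeafCurves

variable {n k : ℕ}

/-- A nonnegative test function on `U` supported in a given neighbourhood of a point of `U`, and
equal to `1` at the point. -/
theorem exists_bump (U : Opens (Mfd n k)) {y : Mfd n k} {N : Set (Mfd n k)} (hN : N ∈ 𝓝 y)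
    (hNU : N ⊆ U) : ∃ f : 𝓓(U, ℝ), (∀ x, 0 ≤ f x) ∧ f y = 1 ∧ ∀ x, f x ≠ 0 → x ∈ N := by
  obtain ⟨f, hf1, hf2, hf3, hf4, hf5⟩ := exists_contDiff_tsupport_subset (n := ⊤) hN
  refine ⟨⟨f, hf3, hf2, hf1.trans hNU⟩, fun x => ?_, hf5, fun x hx => ?_⟩
  · exact (hf4 ⟨x, rfl⟩).1
  · exact hf1 (subset_tsupport _ hx)

/-- Countably many test functions detect the complement of a closed set. -/
theorem exists_countable_bumps (U : Opens (Mfd n k)) {C : Set (Mfd n k)} (hC : IsClosed C) :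
    ∃ F : ℕ → 𝓓(U, ℝ), (∀ j x, 0 ≤ F j x) ∧ (∀ j, ∀ x ∈ C, F j x = 0) ∧
      ∀ x ∈ U, x ∉ C → ∃ j, 0 < F j x := by
  classical
  have hopen : IsOpen ((U : Set (Mfd n k)) \ C) := U.isOpen.sdiff hC
  have hex : ∀ y : Mfd n k, ∃ f : 𝓓(U, ℝ), (∀ x, 0 ≤ f x) ∧ (y ∈ (U : Set (Mfd n k)) \ C → f y = 1) ∧
      ∀ x ∈ C, f x = 0 := by
    intro y
    by_cases hy : y ∈ (U : Set (Mfd n k)) \ C
    · obtain ⟨f, hf1, hf2, hf3⟩ := exists_bump U (hopen.mem_nhds hy) sdiff_subset
      refine ⟨f, hf1, fun _ => hf2, fun x hx => ?_⟩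
      by_contra hne
      exact (hf3 x hne).2 hx
    · exact ⟨0, fun x => le_rfl, fun h => absurd h hy, fun x _ => rfl⟩
  choose f hf0 hf1 hfC using hex
  let V : Mfd n k → Set (Mfd n k) := fun y => {x | 0 < f y x}
  have hV : ∀ y, IsOpen (V y) := fun y => isOpen_lt continuous_const (f y).continuous
  obtain ⟨T, hTc, hT⟩ := TopologicalSpace.isOpen_iUnion_countable V hV
  have hcov : ∀ x ∈ U, x ∉ C → ∃ y ∈ T, 0 < f y x := by
    intro x hx hxC
    have h1 : x ∈ ⋃ y, V y := mem_iUnion.2 ⟨x, by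
      change 0 < f x x
      rw [hf1 x ⟨hx, hxC⟩]
      exact one_pos⟩
    rw [← hT] at h1
    simpa [V] using h1
  rcases T.eq_empty_or_nonempty with hTe | hTn
  · refine ⟨fun _ => 0, fun _ x => le_rfl, fun _ x _ => rfl, fun x hx hxC => ?_⟩
    obtain ⟨y, hy, -⟩ := hcov x hx hxC
    rw [hTe] at hy
    exact absurd hy (notMem_empty _)
  · obtain ⟨e, he⟩ := hTc.exists_eq_range hTn
    refine ⟨fun j => f (e j), fun j x => hf0 _ x, fun j x hx => hfC _ x hx, fun x hx hxC => ?_⟩
    obtain ⟨y, hy, hpos⟩ := hcov x hx hxC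
    rw [he] at hy
    obtain ⟨j, rfl⟩ := hy
    exact ⟨j, hpos⟩

/-- For all `n ≥ 2` and `k`, there is a `C`-cycle on `ℂⁿ × ℝᵏ`, foliated by the leaves `ℂⁿ × {w}`
with their standard complex structure, which is on no neighbourhood of the origin a non-negative
superposition of pseudoholomorphic curves. -/
theorem result (n k : ℕ) (hn : 2 ≤ n) :
    FailsAt (leafTangent n k) (stdJ n k) (0 : Mfd n k) := by
  refine ⟨tropical k hn, isConeCurrent_tropical k hn, isCycle_tropical k hn, ?_⟩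
  rintro U h0U ⟨m, ν, hν⟩
  obtain ⟨r, hr, hball⟩ := Metric.isOpen_iff.1 U.isOpen 0 h0U
  obtain ⟨F, hF0, hFC, hFpos⟩ := exists_countable_bumps U (isClosed_supp k hn)
  obtain ⟨f, hf0, hf1, hfb⟩ := exists_bump U (Metric.ball_mem_nhds (0 : Mfd n k) hr) hball
  have hnn : ∀ (h : 𝓓(U, ℝ)), (∀ x, 0 ≤ h x) → ∀ c' : CurveSpace (leafTangent n k) (stdJ n k) U, 0 ≤ c'.1 (testForm h) := by
    rintro h hh ⟨c', S, _, _, u, _, _, _, hu, ι, g, φ, hφ, hg, hc'⟩
    simp only [hc']
    exact hu.integral_testForm_nonneg g φ hφ hh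
  have hae : ∀ j, ∀ᵐ c' : CurveSpace (leafTangent n k) (stdJ n k) U ∂ν, c'.1 (testForm (F j)) = 0 := by
    intro j
    obtain ⟨hint, heq⟩ := hν (testForm (F j))
    rw [tropical_testForm_eq_zero hn (F j) (hFC j)] at heq
    exact (integral_eq_zero_iff_of_nonneg (hnn _ (hF0 j)) hint).1 heq.symm
  have hae' : ∀ᵐ c' : CurveSpace (leafTangent n k) (stdJ n k) U ∂ν, ∀ j, c'.1 (testForm (F j)) = 0 := ae_all_iff.2 hae
  have hnot : ¬ ∀ᵐ c' : CurveSpace (leafTangent n k) (stdJ n k) U ∂ν, c'.1 (testForm f) = 0 := by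
    intro h
    obtain ⟨-, heq⟩ := hν (testForm f)
    rw [integral_eq_zero_of_ae h] at heq
    have := tropical_testForm_pos hn f hf0 (by rw [hf1]; exact one_pos)
    linarith
  obtain ⟨⟨c', S, _, _, u, _, _, _, hu, ι, g, φ, hφ, hg, hc'⟩, hz, hne⟩ :
      ∃ c' : CurveSpace (leafTangent n k) (stdJ n k) U, (∀ j, c'.1 (testForm (F j)) = 0) ∧ ¬ c'.1 (testForm f) = 0 := by
    by_contra hcon
    push Not at hcon
    exact hnot (hae'.mono fun c' hc' => hcon c' hc')
  simp only [hc'] at hz hne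
  have hsupp : ∀ s, (u s : Mfd n k) ∈ supp k hn := by
    intro s
    by_contra hs
    obtain ⟨j, hj⟩ := hFpos (u s) (u s).2 hs
    exact hj.ne' (hu.eq_zero_of_integral_eq_zero g φ hφ hg (hF0 j) (hz j) s)
  obtain ⟨s₀, hs₀⟩ : ∃ s, f (u s) ≠ 0 := by
    by_contra hcon
    push Not at hcon
    exact hne (hu.integral_testForm_eq_zero_of_forall g φ hφ hcon)
  exact hu.not_subset_supp hn hball hsupp (hfb _ hs₀)

end Pool.Agent.Results.MP_03adb9_gt.NoLocalSuperposition
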